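import Pool.Agent.Y855.BI.Prod

/-!
# Bishop's questions on the separating set, for every dimension and every codimension at least three
-/

open Set Topology

namespace Pool.Agent.Results.MP_402458_gt.EveryDimension

open Pool.Agent.Y855.BI

/-- **Both questions of Bishop have a negative answer in every dimension `n` and for a closed
embedded submanifold of every dimension `m ≤ n - 3`** (`n = 3 + k`; a point for `m = 0`): for
`M k = ℝ × ℝ × S¹ × ℝᵏ` with the complete metric `dx² + dz² / (1 + x²) + dθ² + dy₁² + ... + dy_k²`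
and `N k m = {(0, 0, 0, y) : y_i = 0 for i ≥ m}`. -/
theorem result {k m : ℕ} (hmk : m ≤ k) :
    (∀ (P : M k) (v : V k), ∃ c : Crv k, IsGeo c ∧ c.pt 0 = P ∧ c.vel 0 = v) ∧
    (∃ f : (Fin m → ℝ) → M k, IsClosedEmbedding f ∧ range f = N k m) ∧
    (∃ q ∈ TangentSep k m, q ∈ closure (TangentCut k m \ TangentSep k m)) ∧
    ¬ IsOpen {q : TangentCut k m | (q : M k × V k) ∈ TangentSep k m} ∧
    (∃ P ∈ Cut k m ∩ Sep k m, P ∈ closure (Cut k m \ Sep k m)) ∧
    ¬ IsOpen {P : Cut k m | (P : M k) ∈ Sep k m} :=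
  main hmk

end Pool.Agent.Results.MP_402458_gt.EveryDimension
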